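import Pool.Agent.FLB.Main

/-!
# The numerical form of the conjecture of Dubrovin for all flag varieties, in big quantum cohomology

`P` is a reduced crystallographic root system in the complex vector space `V`, with a base `b`, `J` is
a set of simple roots, and `X = G/Q` is the flag variety of a semisimple complex group `G` with this
root system and of its parabolic subgroup `Q` whose Levi subgroup has the simple roots `J`; all
projective homogeneous varieties occur. `Pool/Agent/FLG/Flag.lean` and `Pool/Agent/FLG/FlagP.lean`
describe `H^*(X)` (basis: Schubert classes `σ_u`, `u ∈ Rep b J`), the products with `H^2(X) ⊆ V`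
((quantum) Chevalley formula), `K_0(X)` with its Euler form and the `Γ`-class; the genus-zero theory
of `X`, and the theory equivariant for a cocharacter, are in `Pool/Agent/Helper18/Dub/GWDefs.lean`,
`Pool/Agent/SHF/Defs.lean` and `Pool/Agent/FLB/Defs.lean`; monodromy data are in
`Pool/Agent/Helper7/DubStokes/Defs.lean`.
-/

set_option autoImplicit false

open scoped BigOperators Topology

namespace Pool.Agent.Results.MP_78bf89_ag.AllFlags

open Pool.Agent.Helper18.Dub Pool.Agent.Helper7.DubStokes Pool.Agent.SHF Pool.Agent.DST
open Pool.Agent.FLG Pool.Agent.FLG.FlagP Pool.Agent.FLB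

/-- Let `X = G/Q` be a flag variety, with its genus-zero theory `X` (in the Schubert basis, numbered
by `e`), which extends to a theory `T` equivariant for the cocharacter `ξ`. The big quantum
cohomology of `X` is generically semisimple. For every `t ∈ H^2(X)` there is a unique standard
solution `Z = z^θ M(z) z^{-c_1}`, `M(z) → 1` as `z → ∞`, at `t`, and there is `ρ > 0` such that for all
`p` with `|p_i - t_i| < ρ`: big quantum cohomology converges at `p`; `p` is a limit of such points
with pairwise distinct canonical coordinates; if those of `p` are pairwise distinct, monodromy data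
at `p` exist for every admissible line; and for ALL monodromy data at `p` there is a basis
`v_1, …, v_N` of `K_0(X)` which is numerically exceptional, such that (a) the Stokes matrix is the
Gram matrix `χ(v_i, v_j)`; (b) `C = C' C''`, where the `j`-th column of `C''` is `(2πi)^deg ch(v_j)`
and `C'` is invertible and commutes with `c_1(X)`, and moreover is isometric; (c) the columns of the
solution `X_-` at `p` are obtained by the parallel transport along the segment from `t` to `p` from
the solutions `(i/√(2π))^dim X Z(z) e^{t + πi c_1} Γ̂ (2πi)^deg ch(v_j)` at `t`. -/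
theorem result {ι V V' : Type} [Fintype ι] [AddCommGroup V] [Module ℂ V] [AddCommGroup V']
    [Module ℂ V'] (P : RootPairing ι ℂ V V') [P.IsRootSystem] [P.IsCrystallographic]
    [P.IsReduced] (b : P.Base) (J : Set ι) (hJ : J ⊆ b.support) [Fintype P.weylGroup]
    [DecidableEq P.weylGroup] {N : ℕ} (e : Fin N ≃ Rep b J) (ξ : V →ₗ[ℂ] ℂ)
    (hξ : IsGeneric b J ξ) (X : FanoGW (Fin N)) (T : FlagGW b J ξ e X) :
    X.IsGenericallySemisimple ∧
    ∀ t : V, (∀ j ∈ J, P.coroot' j t = 0) →
      (∃! Z, Pool.Agent.DSTJ.Spec.IsStandard X (coord e X t) Z) ∧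
      ∃ ρ : ℝ, 0 < ρ ∧ ∀ p : Fin N → ℂ, (∀ i, ‖p i - coord e X t i‖ < ρ) →
        ConvergesAt X p ∧
        (∀ δ : ℝ, 0 < δ → ∃ p' : Fin N → ℂ, (∀ i, ‖p' i - p i‖ < δ) ∧
          (eulerMat X p').charpoly.Separable) ∧
        ((eulerMat X p).charpoly.Separable → ∀ φ : ℝ, DST.IsAdmissible X p φ →
          ∃ M : Helper7.DubStokes.MonodromyData X p, M.φ = φ) ∧
        ∀ M : Helper7.DubStokes.MonodromyData X p, ∃ v : Fin N → KClass P J,
          IsExceptionalBasis b J v ∧
          (∀ i j, M.S i j = euler b J (v i) (v j)) ∧
          (∃ C' : Matrix (Fin N) (Fin N) ℂ, C' * X.cupMat = X.cupMat * C' ∧ C'.det ≠ 0 ∧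
            M.C = C' * twist X * (chernMatrix b J v).submatrix e id ∧
            ∀ (x y : KClass P J) (w : ℂ), Helper7.DubStokes.flatPairing M w
              ((C' * twist X).mulVec fun a => chern b J x (e a))
              ((C' * twist X).mulVec fun a => chern b J y (e a)) = euler b J x y) ∧
          ∀ Z, Pool.Agent.DSTJ.Spec.IsStandard X (coord e X t) Z →
            ∃ F : ℂ → ℂ → Matrix (Fin N) (Fin N) ℂ,
              Pool.Agent.DSTJ.Spec.IsTransport X (coord e X t) p F ∧
              (∀ w, F 0 w = (Complex.I / (Real.sqrt (2 * Real.pi) : ℂ)) ^ X.dim •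
                (Z w * (gammaOp b J t).submatrix e e * twist X *
                  (chernMatrix b J v).submatrix e id)) ∧
              ∀ w, F 1 w = M.Xminus w :=
  all_flags P b J hJ e ξ hξ X T

end Pool.Agent.Results.MP_78bf89_ag.AllFlags
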