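import Pool.Agent.SFX.Main

/-!
# Fano manifolds with a torus action: the canonical coordinates of the fixed components

`X` is a Fano manifold with an action of `T = ℂ^*`, `T : TorusGW X` its equivariant genus-zero
theory with the shift operator (`Pool/Agent/SHF/Defs.lean`), and `Φ : FixedLocus` the decomposition
of the equivariant big quantum cohomology, as an F-manifold over a field `K ⊇ ℂ(λ)`, into the big
quantum cohomologies of the connected components `F_j` of `X^T` (`Pool/Agent/SFX/Defs.lean`).

Equivariant and non-equivariant big quantum cohomology have the same number `s(X)` of canonical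
coordinates, and `s(X) = ∑_j s(F_j)`; big quantum cohomology of `X` is generically semisimple if and
only if this holds for all `F_j`. If all `F_j` are points or curves, it is generically semisimple if
and only if the curves are rational, if and only if `h^{p,q}(X) = 0` for `p ≠ q`.
-/

namespace Pool.Agent.Results.MP_78bf89_ag.FixedComponents

open Pool.Agent.Helper18.Dub Pool.Agent.Helper1.DubProd Pool.Agent.SHF Pool.Agent.SFX

/-- (1) The equivariant big quantum cohomology (at generic `(t, λ)`, or at generic `t` for a fixed
value `c` of the equivariant parameter) has as many canonical coordinates as that of `X`, and it is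
generically semisimple if and only if that of `X` is. (2) This number is at least the rank of the
trace form of `H_T(X) ⊗ ℂ(λ)`, that is the number of components of `X^T`; and if `X^T` is finite,
big quantum cohomology is generically semisimple. (3) The number of canonical coordinates of `X` is
the sum of those of the components `F_j`, and `X` is generically semisimple if and only if all `F_j`
are. (4) If `F_j` is a point (`c j = none`) or a curve of genus `g` (`c j = some g`) for all `j`,
then this number is `∑ count (c j)`, where `count` is `1` for points, `2` for rational and `1` for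
other curves, and `X` is generically semisimple if and only if its Hodge numbers `h^{p,q}` vanish
for `p ≠ q`. -/
theorem result {ι : Type} [Fintype ι] [DecidableEq ι] (X : FanoGW ι) (T : TorusGW X) :
    ((T.traceRankT = traceRank X ∧
        (T.IsGenericallySemisimpleT ↔ X.IsGenericallySemisimple)) ∧
      ∀ c : ℂ, T.traceRankAt c = traceRank X ∧
        (T.IsGenericallySemisimpleAt c ↔ X.IsGenericallySemisimple)) ∧
    (T.fixedRank ≤ traceRank X ∧
      (T.fixedRank = Fintype.card ι → X.IsGenericallySemisimple)) ∧
    ∀ (K : Type) [Field K] (J : Type) [Fintype J] [DecidableEq J] (κ : J → Type)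
      [∀ j, Fintype (κ j)] [∀ j, DecidableEq (κ j)] (Φ : FixedLocus T.toEquivGW K κ),
      (traceRank X = ∑ j, coords (Φ.F j) ∧
        (X.IsGenericallySemisimple ↔ ∀ j, Semisimple (Φ.F j))) ∧
      ∀ c : J → Option ℕ, (∀ j, IsPointOrCurve (Φ.F j) (c j)) →
        traceRank X = ∑ j, count (c j) ∧
        ∀ n : J → ℕ, (X.IsGenericallySemisimple ↔ ∀ p q, p ≠ q → hodgeX c n p q = 0) := by
  have h := T.main
  refine ⟨⟨h.1, h.2.1⟩, h.2.2.1, fun K _ J _ _ κ _ _ Φ => ⟨⟨?_, ?_⟩, fun c hc => ?_⟩⟩
  · exact FixedLocus.traceRank_eq T Φ
  · exact FixedLocus.isGenericallySemisimple_iff T Φ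
  · have h1 := FixedLocus.pointsOrCurves T Φ c hc
    exact ⟨h1.1, h1.2.2⟩

end Pool.Agent.Results.MP_78bf89_ag.FixedComponents
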