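import Pool.Agent.FLG.ZP.Fin
import Pool.Agent.FLG.ZP.Dense
import Pool.Agent.FLG.ZP.Gen

/-!
# The numerical form of the conjecture of Dubrovin for flag varieties

`P` is a reduced crystallographic root system in the complex vector space `V`, with a base `b`, `J` is
a set of simple roots, and `X = G/Q` is the flag variety of a semisimple complex group `G` with this
root system and of its parabolic subgroup `Q` whose Levi subgroup has the simple roots `J` (so
`X = G/B` for `J = ∅`, and all projective homogeneous varieties occur).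
`Pool/Agent/FLG/Flag.lean` and `Pool/Agent/FLG/FlagP.lean` describe `H^*(X)` (basis: Schubert classes
`σ_w`, `w ∈ Rep b J`), the quantum product with `c_1(X)` at the points `t ∈ H^2(X) ⊆ V` (quantum
Chevalley formula), and `K_0(X)` with its Euler form; `Pool/Agent/FLG/Small.lean` describes monodromy
data.
-/

namespace Pool.Agent.Results.MP_78bf89_ag.FlagVarieties

open Pool.Agent.FLG Pool.Agent.FLG.FlagP

/-- Let `X = G/Q` be a flag variety. The points `t ∈ H^2(X)` with pairwise distinct canonical
coordinates (at which `c_1(X) •` has a separable characteristic polynomial) are dense as soon as there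
is one, and there is one if `X = G/B`, or if `H^2(X)` generates the algebra `H^*(X)`, or if it
generates the quantum cohomology of `X` at one point of `H^2(X)`. At each of them monodromy data exist, for every admissible
line. For all monodromy data at all points `t ∈ H^2(X)` there is a basis `v_1, …, v_N` of `K_0(X)`
which is numerically exceptional, such that (a) the Stokes matrix is the Gram matrix `χ(v_i, v_j)`;
(b) `C = C' C''`, where the `j`-th column of `C''` is `(2πi)^deg ch(v_j)` and `C'` is invertible and
commutes with `c_1(X)`, and moreover is isometric; (c) the columns of the solution `X_-` are, up to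
the constant factor `(i/√(2π))^dim X`, the solutions `Z(z) e^{t + πi c_1} Γ̂ (2πi)^deg ch(v_j)`, where
`Z = z^θ M(z) z^{-c_1}` is the unique standard solution with `M(z) → 1` as `z → ∞`. -/
theorem result {ι V V' : Type} [Fintype ι] [AddCommGroup V] [Module ℂ V] [AddCommGroup V']
    [Module ℂ V'] (P : RootPairing ι ℂ V V') [P.IsRootSystem] [P.IsCrystallographic]
    [P.IsReduced] (b : P.Base) (J : Set ι) (hJ : J ⊆ b.support) [Fintype P.weylGroup]
    [DecidableEq P.weylGroup] [Fintype (Rep b J)] [DecidableEq (Rep b J)] :
    ((J = ∅ ∨ Generates b J (cup b J) ∨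
        ∃ t₀ : V, (∀ j ∈ J, P.coroot' j t₀ = 0) ∧ Generates b J (mul b J t₀)) →
      ∃ t : V, (∀ j ∈ J, P.coroot' j t = 0) ∧ (small b J t).mul.charpoly.Separable) ∧
    (∀ t₀ t₁ : V, (∀ j ∈ J, P.coroot' j t₀ = 0) → (∀ j ∈ J, P.coroot' j t₁ = 0) →
      (small b J t₁).mul.charpoly.Separable → ∀ δ : ℝ, 0 < δ → ∃ t : V,
        (∀ j ∈ J, P.coroot' j t = 0) ∧ (∀ i, ‖P.coroot' i (t - t₀)‖ < δ) ∧
        (small b J t).mul.charpoly.Separable) ∧
    ∀ t : V, (∀ j ∈ J, P.coroot' j t = 0) →
      ((small b J t).mul.charpoly.Separable → ∀ φ : ℝ, IsAdmissible (small b J t) φ →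
        ∃ M : MonodromyData (small b J t) (Fintype.card (Rep b J)), M.φ = φ) ∧
      (∃! Z, IsStandard (small b J t) Z) ∧
      ∀ M : MonodromyData (small b J t) (Fintype.card (Rep b J)),
      ∃ v : Fin (Fintype.card (Rep b J)) → KClass P J,
        IsExceptionalBasis b J v ∧
        (∀ i j, M.S i j = euler b J (v i) (v j)) ∧
        (∃ C' : Matrix (Rep b J) (Rep b J) ℂ,
          C' * (small b J t).cup = (small b J t).cup * C' ∧ C'.det ≠ 0 ∧
          M.C = C' * (small b J t).twist * chernMatrix b J v ∧
          ∀ (x y : KClass P J) (w : ℂ), flatPairing M w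
            ((C' * (small b J t).twist).mulVec (chern b J x))
            ((C' * (small b J t).twist).mulVec (chern b J y)) = euler b J x y) ∧
        ∀ Z, IsStandard (small b J t) Z → ∀ w, M.Xminus w =
          (Complex.I / (Real.sqrt (2 * Real.pi) : ℂ)) ^ (small b J t).dim •
            (Z w * gammaOp b J t * (small b J t).twist * chernMatrix b J v) := by
  refine ⟨?_, fun t₀ t₁ h₀ h₁ hs δ hδ => dense_flagP b J h₀ h₁ hs hδ, fun t ht =>
    ⟨fun hsep φ hφ => exists_data_smallP b hJ ht hsep hφ, exists_standardP b hJ ht,
      fun M => ?_⟩⟩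
  · rintro (rfl | h)
    · obtain ⟨t, ht⟩ := exists_sep_empty b
      exact ⟨t, fun j hj => absurd hj (Set.notMem_empty j), ht⟩
    · exact exists_sep_gen b hJ h
  · obtain ⟨Z, hZ, huniq⟩ := exists_standardP b hJ ht
    obtain ⟨v, h1, h2, h3, h4⟩ := final_flagP b hJ ht hZ M
    refine ⟨v, h1, h2, h3, fun Z' hZ' => ?_⟩
    rw [huniq Z' hZ']
    exact h4

end Pool.Agent.Results.MP_78bf89_ag.FlagVarieties
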