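import Pool.Agent.FLX.FinS
import Pool.Agent.TCM.Lft

/-!
# The conjecture of Dubrovin for the flag varieties of types `A` and `C`

`P` is a root system in the complex vector space `V`, with a base `b`, all of whose components are of
type `A` or `C`; `X = G/B` is the flag variety of the simply connected group with the root system `P`,
a product of varieties of complete flags `Fl_n` and of varieties of complete isotropic flags in
symplectic spaces. The simple roots `α_x` and the fundamental weights `ω_x` are indexed by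
`x ∈ Σ s, Fin (n s)`, in such a way that the Cartan matrix is block diagonal with the blocks
`CartanMatrix.A (n s)`, `CartanMatrix.C (n s)` of Mathlib.
`Pool/Agent/FLG/Flag.lean` describes `H^*(X)` (basis: Schubert classes `σ_w`, `w ∈ W`), the quantum
product with `c_1(X)` at the points `t ∈ H^2(X) = V` (quantum Chevalley formula), and `K_0(X)` with its
Euler form; `Pool/Agent/FLG/Small.lean` describes monodromy data, `Pool/Agent/TCM/Defs.lean` full
exceptional collections in a triangulated category `D`.

For `0 ≤ j ≤ r` let `P_j ⊇ B` be the parabolic subgroup generated by `B` and the root subgroups of the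
last `j` simple roots with respect to the lexicographic order of the indices. If `x = (s, i)` is the
`(j+1)`-st index from the end, then `G/P_j → G/P_{j+1}` is a bundle of projective spaces `ℙ^N` with the
relative `O(1)` `L_{ω_x}`, where `N = n_s - i` for a component of type `A`, `N = 2 (n_s - i) - 1` for a
component of type `C` (`i = 0, …, n_s - 1`). By the theorem of Orlov
`D^b(G/P_j) = ⟨D^b(G/P_{j+1}), D^b(G/P_{j+1}) ⊗ L_{ω_x}, …, D^b(G/P_{j+1}) ⊗ L_{ω_x}^N⟩`.
Hence the line bundles `L_μ`, `μ = ∑ μ_x ω_x`, `0 ≤ μ_x ≤ N_x`, are a full exceptional collection on `X`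
in the order in which the last `μ_x` is the most significant one. This is the only fact about
`D = D^b(X)` which is used; that mutations of full exceptional collections exist and have the expected
classes is proved.
-/

namespace Pool.Agent.Results.MP_78bf89_ag.FlagsAC

open Pool.Agent.FLG Pool.Agent.FLG.Flag Pool.Agent.FLO Pool.Agent.TCM
open CategoryTheory CategoryTheory.Limits CategoryTheory.Pretriangulated

universe v u

/-- Let `X` be as above. The points `t ∈ H^2(X)` with pairwise distinct canonical coordinates (at which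
`c_1(X) •` has a separable characteristic polynomial) are dense, and at each of them monodromy data
exist, for every admissible line. For all monodromy data at all points `t ∈ H^2(X)` there are classes
`v_1, …, v_N` in `K_0(X)` such that (o) the sequence `v_1, …, v_N` is obtained by mutations and shifts
from the sequence of the line bundles `L_μ`, `μ = ∑ μ_x ω_x`, where `0 ≤ μ_x ≤ n_s - i` for `x = (s, i)`
in a component of type `A`, `0 ≤ μ_x ≤ 2 (n_s - i) - 1` for `x = (s, i)` in a component of type `C`, in
the order in which the last exponent that differs decides; in particular it is a numerically exceptional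
basis of `K_0(X)`; (a) the Stokes matrix is the Gram matrix `χ(v_i, v_j)`; (b) `C = C' C''`, where the
`j`-th column of `C''` is `(2πi)^deg ch(v_j)` and `C'` is invertible and commutes with `c_1(X)`, and
moreover is isometric; (c) the columns of the solution `X_-` are, up to the constant factor
`(i/√(2π))^dim X`, the solutions `Z(z) e^{t + πi c_1} Γ̂ (2πi)^deg ch(v_j)`, where
`Z = z^θ M(z) z^{-c_1}` is the unique standard solution with `M(z) → 1` as `z → ∞`.

Moreover, let `D` be a `ℂ`-linear triangulated category with finite-dimensional total Hom spaces, `cl`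
an additive map to `H^*(X)` and `L_μ` objects of `D`, which form a full exceptional collection, with
`cl(L_μ) = ch(L_μ)` and the Euler form of the line bundles `L_μ`: for example `D = D^b(X)`, `cl = ch`.
Then there is a full exceptional collection `(E_1, …, E_N)` of objects of `D` with `cl(E_j) = ch(v_j)`
and `S_{ij} = χ(E_i, E_j)`. -/
theorem result {ι V V' : Type} [Fintype ι] [AddCommGroup V] [Module ℂ V] [AddCommGroup V']
    [Module ℂ V'] (P : RootPairing ι ℂ V V') [P.IsRootSystem] [P.IsCrystallographic]
    [P.IsReduced] (b : P.Base) [Fintype P.weylGroup] [DecidableEq P.weylGroup]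
    {m : ℕ} (n : Fin m → ℕ) (isC : Fin m → Prop) [DecidablePred isC]
    (e : (Σ s, Fin (n s)) ≃ b.support)
    (he : ∀ x y, b.cartanMatrix (e x) (e y) = Matrix.blockDiagonal'
      (fun s => if isC s then CartanMatrix.C (n s) else CartanMatrix.A (n s)) x y)
    (ω : (Σ s, Fin (n s)) → V) (hω : ∀ x y, P.coroot' (e x) (ω y) = if x = y then 1 else 0)
    (B : List ((Σ s, Fin (n s)) → ℤ))
    (hB : B.Pairwise fun μ ν => ∃ x, (∀ y, (x.1 < y.1 ∨ (x.1 = y.1 ∧ (x.2 : ℕ) < y.2)) →
      μ y = ν y) ∧ μ x < ν x)
    (hB' : ∀ μ, μ ∈ B ↔ ∀ x, 0 ≤ μ x ∧ μ x ≤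
      if isC x.1 then 2 * ((n x.1 : ℤ) - (x.2 : ℕ)) - 1 else (n x.1 : ℤ) - (x.2 : ℕ)) :
    (∀ (t₀ : V) (δ : ℝ), 0 < δ → ∃ t : V, (∀ i, ‖P.coroot' i (t - t₀)‖ < δ) ∧
      (small b t).mul.charpoly.Separable) ∧
    ∀ t : V, ((small b t).mul.charpoly.Separable → ∀ φ : ℝ, IsAdmissible (small b t) φ →
        ∃ M : MonodromyData (small b t) (Fintype.card P.weylGroup), M.φ = φ) ∧
      (∃! Z, IsStandard (small b t) Z) ∧
      ∀ M : MonodromyData (small b t) (Fintype.card P.weylGroup),
      ∃ v : Fin (Fintype.card P.weylGroup) → KClass P,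
        Mutated b (B.map fun μ => lineB (∑ x, (μ x : ℂ) • ω x)) (List.ofFn v) ∧
        IsExceptionalBasis b v ∧
        (∀ i j, M.S i j = euler b (v i) (v j)) ∧
        (∃ C' : Matrix P.weylGroup P.weylGroup ℂ,
          C' * (small b t).cup = (small b t).cup * C' ∧ C'.det ≠ 0 ∧
          M.C = C' * (small b t).twist * chernMatrix b v ∧
          ∀ (x y : KClass P) (w : ℂ), flatPairing M w
            ((C' * (small b t).twist).mulVec (chern b x))
            ((C' * (small b t).twist).mulVec (chern b y)) = euler b x y) ∧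
        (∀ Z, IsStandard (small b t) Z → ∀ w, M.Xminus w =
          (Complex.I / (Real.sqrt (2 * Real.pi) : ℂ)) ^ (pos b).card •
            (Z w * gammaOp b t * (small b t).twist * chernMatrix b v)) ∧
        ∀ (D : Type u) [Category.{v} D] [Preadditive D] [HasZeroObject D] [HasShift D ℤ]
          [∀ k : ℤ, (shiftFunctor D k).Additive] [Pretriangulated D] [Linear ℂ D]
          [∀ k : ℤ, Functor.Linear ℂ (shiftFunctor D k)] [HomFinite D]
          (cl : D → P.weylGroup → ℂ) (L : ((Σ s, Fin (n s)) → ℤ) → D), IsAdd cl →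
          (∀ μ ∈ B, cl (L μ) = chern b (lineB (∑ x, (μ x : ℂ) • ω x))) →
          (∀ μ ∈ B, ∀ ν ∈ B, (chi (L μ) (L ν) : ℂ) =
            euler b (lineB (∑ x, (μ x : ℂ) • ω x)) (lineB (∑ x, (ν x : ℂ) • ω x))) →
          IsFEC (B.map L) →
          ∃ E : Fin (Fintype.card P.weylGroup) → D, IsFullExceptional E ∧
            (∀ j, cl (E j) = chern b (v j)) ∧ ∀ i j, M.S i j = chi (E i) (E j) := by
  have he' : ∀ x y, b.cartanMatrix (e x) (e y) = Pool.Agent.FLX.Br.car n isC x y := by
    intro x y
    rw [he]
    unfold Pool.Agent.FLX.Br.car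
    congr 1
    funext s
    split_ifs <;> rfl
  refine ⟨fun t₀ δ hδ => dense_flag b t₀ hδ, fun t => ⟨fun hsep φ hφ =>
    exists_data_small' b t hsep hφ, exists_standard b t, fun M => ?_⟩⟩
  have hB2 : ∀ μ, μ ∈ B ↔ ∀ x, 0 ≤ μ x ∧
      (isC x.1 → μ x ≤ 2 * ((n x.1 : ℤ) - (x.2 : ℕ)) - 1) ∧
      (¬ isC x.1 → μ x ≤ (n x.1 : ℤ) - (x.2 : ℕ)) := by
    intro μ
    rw [hB']
    refine forall_congr' fun x => ?_
    by_cases h : isC x.1
    · rw [if_pos h]
      exact ⟨fun h1 => ⟨h1.1, fun _ => h1.2, fun h2 => absurd h h2⟩, fun h1 => ⟨h1.1, h1.2.1 h⟩⟩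
    · rw [if_neg h]
      exact ⟨fun h1 => ⟨h1.1, fun h2 => absurd h2 h, fun _ => h1.2⟩, fun h1 => ⟨h1.1, h1.2.2 h⟩⟩
  obtain ⟨v, h1, h2, h3, h4, h5⟩ := Pool.Agent.FLX.Br.final_sig n isC e he' ω hω hB hB2 t M
  refine ⟨v, h1, h2, h3, h4, h5, ?_⟩
  intro D _ _ _ _ _ _ _ _ _ cl L hcl hL hχ hfec
  obtain ⟨E, hE1, hE2, hE3⟩ := exists_objects b hcl h1 L hL hχ hfec
  exact ⟨E, hE1, hE2, fun i j => by rw [h3, hE3]⟩

end Pool.Agent.Results.MP_78bf89_ag.FlagsAC
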